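import Pool.Agent.LE.StmtsQG

/-!
# Squad LQF, row UPA: the parts of `φ` and `Xh`
-/

set_option autoImplicit false

open MeasureTheory ProbabilityTheory Function Filter

open scoped ENNReal BigOperators Topology NNReal ComplexOrder Matrix

noncomputable section

namespace Pool.Agent.LE.QF.H91

open Pool.Agent.Anderson hiding box mem_box card_box
open Pool.Agent.Loc Pool.Agent.Mob Pool.Agent.Helper54.Bal
  Pool.Agent.Helper96.EXP Pool.Agent.BED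
open Pool.Agent.LE.MN Pool.Agent.LE.CL Pool.Agent.LE.IR Pool.Agent.LE.QD

variable {d M : ℕ} [NeZero M]

theorem cardT : (Fintype.card (Tor d M) : ℝ) = (M : ℝ) ^ d := by
  have h : Fintype.card (Tor d M) = M ^ d := by
    simp [Tor, ZMod.card]
  rw [h]
  push_cast
  rfl

/-- the constants at a point of the flow -/
theorem ls_bd (D : Dat d M) {c₁ C₁ c₀ κ t : ℝ} {k₀ : ℕ} (hA : Adm D c₁ C₁ c₀ k₀)
    (hκ : κ = D.kp t) (h1 : D.η ≤ κ) (h2 : κ ≤ D.w) (hδ : D.δ ≤ 1) :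
    κ * D.Ls t ≤ D.ch ∧ D.δ ^ 2 * D.N + D.δ ^ 4 / κ ≤ D.Ls t := by
  have hη : 0 < D.η := hA.hT.2.1
  have hκ0 : 0 < κ := hη.trans_le h1
  obtain ⟨-, -, hL, hN, hπ⟩ := hA.hj
  have hδ0 := hA.hδ.1
  have hLs : D.Ls t = D.L₀ * (D.N + D.π₀ / κ ^ 2 + D.δ ^ 4 / κ) := by
    rw [hκ]
    rfl
  have hp : D.π₀ / κ ≤ D.π₀ / D.η := div_le_div_of_nonneg_left hπ hη h1
  constructor
  · have e1 : κ * D.Ls t = D.L₀ * (D.N * κ + D.π₀ / κ + D.δ ^ 4) := by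
      rw [hLs]
      field_simp
    rw [e1]
    unfold Dat.ch
    apply mul_le_mul_of_nonneg_left _ (by linarith)
    have := mul_le_mul_of_nonneg_left h2 (by linarith : (0 : ℝ) ≤ D.N)
    linarith
  · rw [hLs]
    have e2 : D.δ ^ 2 * D.N ≤ D.N := by
      have : D.δ ^ 2 ≤ 1 := pow_le_one₀ hδ0.le hδ
      nlinarith
    have e3 : 0 ≤ D.π₀ / κ ^ 2 := by positivity
    have e4 : 0 ≤ D.δ ^ 4 / κ := by positivity
    have e5 : D.N + D.π₀ / κ ^ 2 + D.δ ^ 4 / κ ≤ D.L₀ * (D.N + D.π₀ / κ ^ 2 + D.δ ^ 4 / κ) :=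
      le_mul_of_one_le_left (by linarith) hL
    linarith

/-- the rate -/
theorem rate (D : Dat d M) {c₁ C₁ c₀ κ t Λ K ℓ γ : ℝ} {k₀ : ℕ} (hA : Adm D c₁ C₁ c₀ k₀)
    (hκ : κ = D.kp t) (h1 : D.η ≤ κ) (h2 : κ ≤ D.w) (hΛ : κ * Λ ≤ D.ch) (hΛ0 : 0 ≤ Λ)
    (hK : 0 ≤ K) (hℓ : ℓ ≤ K * (D.δ ^ 2 / κ + Real.sqrt (Λ / κ))) (hγ : γ ≤ K * Λ) :
    4 * D.j * ℓ / D.δ + 8 * D.j ^ 2 * γ / D.δ ^ 2 ≤ 8 * K * D.aN / κ := by
  have hη : 0 < D.η := hA.hT.2.1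
  have hκ0 : 0 < κ := hη.trans_le h1
  obtain ⟨-, -, hL, hN, hπ⟩ := hA.hj
  obtain ⟨hδ0, hδε, -⟩ := hA.hδ
  have hε : 0 < D.ε₁ := hδ0.trans_le hδε
  have hw : 0 < D.w := hκ0.trans_le h2
  have he : 0 < D.e₀ - 1 := by linarith [hA.he.1, hA.he.2.1]
  have hch : 0 ≤ D.ch := (mul_nonneg hκ0.le hΛ0).trans hΛ
  have hj : (0 : ℝ) ≤ D.j := Nat.cast_nonneg _
  have hs : Real.sqrt (Λ / κ) ≤ Real.sqrt D.ch / κ := by
    have e : Real.sqrt D.ch / κ = Real.sqrt (D.ch / κ ^ 2) := by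
      rw [Real.sqrt_div hch, Real.sqrt_sq hκ0.le]
    rw [e]
    apply Real.sqrt_le_sqrt
    rw [div_le_div_iff₀ hκ0 (by positivity)]
    nlinarith
  have hΛ' : Λ ≤ D.ch / κ := by
    rw [le_div_iff₀ hκ0]
    linarith
  have e1 : 4 * D.j * ℓ / D.δ ≤ 4 * K * (D.j * (D.δ + Real.sqrt D.ch / D.δ)) / κ := by
    have e2 : ℓ ≤ K * (D.δ ^ 2 / κ + Real.sqrt D.ch / κ) :=
      hℓ.trans (mul_le_mul_of_nonneg_left (by linarith) hK)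
    have e3 : 4 * D.j * ℓ / D.δ ≤ 4 * D.j * (K * (D.δ ^ 2 / κ + Real.sqrt D.ch / κ)) / D.δ := by
      gcongr
    refine e3.trans (le_of_eq ?_)
    field_simp
  have e4 : 8 * D.j ^ 2 * γ / D.δ ^ 2 ≤ 8 * K * (D.j ^ 2 * (D.ch / D.δ ^ 2)) / κ := by
    have e2 : γ ≤ K * (D.ch / κ) := hγ.trans (mul_le_mul_of_nonneg_left hΛ' hK)
    have e3 : 8 * D.j ^ 2 * γ / D.δ ^ 2 ≤ 8 * D.j ^ 2 * (K * (D.ch / κ)) / D.δ ^ 2 := by
      gcongr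
    refine e3.trans (le_of_eq ?_)
    field_simp
  have e5 : D.j * (D.δ + Real.sqrt D.ch / D.δ) + D.j ^ 2 * (D.ch / D.δ ^ 2) ≤ D.aN := by
    unfold Dat.aN
    have a1 : 0 ≤ D.j * (D.δ / D.ε₁) := by positivity
    have a2 : 0 ≤ (D.N * D.w + D.δ ^ 2) / D.ε₁ ^ 2 := by positivity
    have a3 : 0 ≤ 1 / Real.sqrt D.L₀ := by positivity
    have a4 : 0 ≤ (D.j : ℝ) ^ 2 * ((D.N * D.w + D.δ ^ 2) / D.ε₁ ^ 2 + 1 / Real.sqrt D.L₀ + D.ε₁ +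
      (D.e₀ - 1)) := by positivity
    have a5 : 0 ≤ D.p * D.δ + D.p ^ 2 * (D.N * D.w + D.δ ^ 2 + D.π₀ / D.η) := by positivity
    nlinarith
  have e6 : 0 ≤ D.j * (D.δ + Real.sqrt D.ch / D.δ) := by positivity
  have e7 : 0 ≤ (D.j : ℝ) ^ 2 * (D.ch / D.δ ^ 2) := by positivity
  have e8 : 4 * K * (D.j * (D.δ + Real.sqrt D.ch / D.δ)) / κ +
      8 * K * (D.j ^ 2 * (D.ch / D.δ ^ 2)) / κ ≤ 8 * K * D.aN / κ := by
    rw [← add_div]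
    gcongr
    nlinarith [mul_nonneg hK e6, mul_nonneg hK e7, mul_le_mul_of_nonneg_left e5 hK]
  linarith

/-- UPA -/
theorem upa (jtp : JtpStmt) (jtx : JtxStmt) (phb : PhbStmt) (xhb : XhbStmt) (pwu : PwuStmt)
    (rsj : RsjStmt) : UpaStmt := by
  intro c₁ C₁ C₀ k₀ hc₁ hC₁ hC₀
  obtain ⟨P, hP, phb⟩ := phb C₀ hC₀
  obtain ⟨Q, hQ, xhb⟩ := xhb C₀ hC₀
  have hP2 : (1 : ℝ) ≤ P ^ 2 := one_le_pow₀ hP
  have hPQ : (1 : ℝ) ≤ Q * P ^ 2 := one_le_mul_of_one_le_of_one_le hQ hP2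
  refine ⟨8 * (4 * Q * P ^ 2), by linarith, ?_⟩
  intro d M _ D c₀ κ τ q hA hq0 hqT hg
  obtain ⟨hκe, hτe, h1, h2, hτ0, hτ1, hτ2⟩ := hg.hκ
  have hη : 0 < D.η := hA.hT.2.1
  have hκ0 : 0 < κ := hη.trans_le h1
  have hδ0 : 0 < D.δ := hA.hδ.1
  have hδ1 : D.δ ≤ 1 := by
    have h3 := hg.hG.hδ.2.1
    nlinarith
  obtain ⟨hΛ, hΛ2⟩ := ls_bd D hA hκe h1 h2 hδ1
  obtain ⟨Λ, hΛe⟩ : ∃ Λ, Λ = D.Ls q.1 := ⟨_, rfl⟩
  rw [← hΛe] at hΛ hΛ2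
  have hN : 0 ≤ D.N := by linarith [hA.hj.2.2.2.1]
  have hΛ0 : 0 ≤ Λ := le_trans (by positivity) hΛ2
  have hr := rsj d M D c₁ C₁ c₀ k₀ q hc₁ hA (hκe ▸ hκ0)
  have hJ := hr.1
  rw [← hτe] at hJ
  have hY : D.Y q = (τ : ℂ) • BB (D.G q) := by
    rw [hτe]
    rfl
  -- the jets
  have j1 := jtp (Tor d M) q D.G D.ta (D.G q) (D.Th q) D.m τ (D.mu q) hJ rfl
    (hY ▸ hg.hu) (by unfold Dat.Th; rw [hY])
  have hL : ∀ a, ∑ b, KK (D.G q) a b ^ 2 ≤ Λ := fun a => hΛe ▸ hg.hL a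
  obtain ⟨b1, b2⟩ := phb (Tor d M) (D.G q) (D.Th q) (D.mu q) (D.ph q) D.nr κ τ D.δ D.N Λ hg.hG
    hg.hT hg.hφ hL hΛ2
  have j1' : ∀ a, HJ (fun r => D.ph r a) q (D.ph q a)
      (fun c => QQ (D.G q) (D.Th q) τ (D.ph q) a c)
      (lph (D.G q) (D.Th q) τ (D.ph q) (D.mu q) a) := j1
  have j2 := jtx (Tor d M) q D.G D.ta (D.G q) D.G0 (QQ (D.G q) (D.Th q) τ (D.ph q)) D.m τ D.ph
    (D.mu q) (D.ph q) (lph (D.G q) (D.Th q) τ (D.ph q) (D.mu q)) hJ rfl j1' hg.hμ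
  obtain ⟨Λ', hΛ'⟩ : ∃ Λ', Λ' = 4 * P ^ 2 * Λ := ⟨_, rfl⟩
  have hΛΛ : Λ ≤ Λ' := by
    rw [hΛ']
    nlinarith
  have hsq : Real.sqrt (Λ' / κ) = 2 * P * Real.sqrt (Λ / κ) := by
    rw [hΛ', mul_div_assoc, Real.sqrt_mul (by positivity)]
    have : (4 : ℝ) * P ^ 2 = (2 * P) ^ 2 := by ring
    rw [this, Real.sqrt_sq (by positivity)]
  have hsq2 : D.δ ^ 2 / κ ≤ Real.sqrt (Λ / κ) := by
    apply Real.le_sqrt_of_sq_le
    have e : (D.δ ^ 2 / κ) ^ 2 = D.δ ^ 4 / κ / κ := by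
      field_simp
    rw [e]
    gcongr
    have : 0 ≤ D.δ ^ 2 * D.N := by positivity
    linarith
  have hs0 : 0 ≤ Real.sqrt (Λ / κ) := Real.sqrt_nonneg _
  have hd0 : 0 ≤ D.δ ^ 2 / κ := by positivity
  obtain ⟨b3, b4⟩ := xhb (Tor d M) (D.G q) (QQ (D.G q) (D.Th q) τ (D.ph q)) (D.mu q) (D.ph q)
    (lph (D.G q) (D.Th q) τ (D.ph q) (D.mu q)) D.nr κ τ D.δ D.N Λ' hg.hG hg.hφ
    (fun a => (hL a).trans hΛΛ) (hΛ2.trans hΛΛ)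
    (fun a => (b1 a).trans (by
      rw [hΛ']
      have : P * Λ ≤ P ^ 2 * Λ := by
        apply mul_le_mul_of_nonneg_right _ hΛ0
        nlinarith
      have h5 : 4 * P ^ 2 * Λ ≤ C₀ * (4 * P ^ 2 * Λ) :=
        le_mul_of_one_le_left (by positivity) hC₀
      have h6 : 0 ≤ P ^ 2 * Λ := by positivity
      linarith))
    (fun a => (b2 a).trans (by
      rw [hsq]
      have h5 : D.δ ^ 2 / κ + 2 * P * Real.sqrt (Λ / κ) ≤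
        C₀ * (D.δ ^ 2 / κ + 2 * P * Real.sqrt (Λ / κ)) :=
        le_mul_of_one_le_left (by positivity) hC₀
      have h6 : P * (D.δ ^ 2 / κ) ≤ P * Real.sqrt (Λ / κ) :=
        mul_le_mul_of_nonneg_left hsq2 (by linarith)
      linarith))
  have hℓ0 : ∀ K : ℝ, 0 ≤ K → 0 ≤ K * (D.δ ^ 2 / κ + Real.sqrt (Λ / κ)) := fun K hK =>
    mul_nonneg hK (by linarith)
  have hj1 : 1 ≤ D.j := by linarith [hA.hj.1]
  -- `U1`
  obtain ⟨g1, l1, J1, hl1⟩ := pwu (Tor d M) q (Tor d M) (fun a r => D.ph r a) (D.ph q)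
    (lph (D.G q) (D.Th q) τ (D.ph q) (D.mu q)) (fun a c => QQ (D.G q) (D.Th q) τ (D.ph q) a c) D.δ
    (P * (D.δ ^ 2 / κ + Real.sqrt (Λ / κ))) (P * Λ) D.j hδ0 (hℓ0 P (by linarith))
    (mul_nonneg (by linarith) hΛ0) hj1 j1' b2 b1
  have J1' : HJ D.U1 q (D.U1 q) g1 l1 := J1
  -- `U2`
  have eU2 : (fun r => ∑ k : Tor d M × Tor d M, (‖D.Xh r k.1 k.2‖ ^ 2 / D.δ ^ 2) ^ D.j) =
      D.U2 := by
    funext r
    rw [Fintype.sum_prod_type]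
    rfl
  obtain ⟨g2, l2, J2, hl2⟩ := pwu (Tor d M) q (Tor d M × Tor d M)
    (fun k r => D.Xh r k.1 k.2) (fun k => D.Xh q k.1 k.2)
    (fun k => lX (D.G q) (QQ (D.G q) (D.Th q) τ (D.ph q)) τ (D.ph q) (D.mu q)
      (lph (D.G q) (D.Th q) τ (D.ph q) (D.mu q)) k.1 k.2)
    (fun k c => dX (D.G q) (QQ (D.G q) (D.Th q) τ (D.ph q)) τ (D.ph q) c k.1 k.2) D.δ
    (Q * (D.δ ^ 2 / κ + Real.sqrt (Λ' / κ))) (Q * Λ') D.j hδ0
    (mul_nonneg (by linarith) (by rw [hsq]; positivity))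
    (mul_nonneg (by linarith) (hΛ0.trans hΛΛ)) hj1
    (fun k => by
      have := j2 k.1 k.2
      rw [hτe] at this
      rw [hτe]
      exact this) (fun k => b4 k.1 k.2) (fun k => b3 k.1 k.2)
  rw [eU2] at J2
  have eU2q : ∑ k : Tor d M × Tor d M, (‖D.Xh q k.1 k.2‖ ^ 2 / D.δ ^ 2) ^ D.j = D.U2 q :=
    congrFun eU2 q
  rw [eU2q] at J2 hl2
  have hM : (1 : ℝ) ≤ (M : ℝ) ^ d := one_le_pow₀ (by exact_mod_cast Nat.one_le_iff_ne_zero.2 (NeZero.ne M))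
  have r1 := rate D (K := P) hA hκe h1 h2 hΛ hΛ0 (by linarith) le_rfl le_rfl
  have r2 := rate D (K := 4 * Q * P ^ 2) (ℓ := Q * (D.δ ^ 2 / κ + Real.sqrt (Λ' / κ)))
    (γ := Q * Λ') hA hκe h1 h2 hΛ hΛ0 (by positivity) (by
      rw [hsq]
      have e1 : D.δ ^ 2 / κ ≤ 4 * P ^ 2 * (D.δ ^ 2 / κ) := le_mul_of_one_le_left hd0 (by linarith)
      have e2 : 2 * P * Real.sqrt (Λ / κ) ≤ 4 * P ^ 2 * Real.sqrt (Λ / κ) := by
        apply mul_le_mul_of_nonneg_right _ hs0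
        nlinarith
      have e3 : 4 * Q * P ^ 2 * (D.δ ^ 2 / κ + Real.sqrt (Λ / κ)) =
        Q * (4 * P ^ 2 * (D.δ ^ 2 / κ) + 4 * P ^ 2 * Real.sqrt (Λ / κ)) := by ring
      rw [e3]
      exact mul_le_mul_of_nonneg_left (by linarith) (by linarith)) (by
      rw [hΛ']
      exact le_of_eq (by ring))
  have hPP : P ≤ 4 * Q * P ^ 2 := by
    have : P ≤ P ^ 2 := by nlinarith
    have : P ^ 2 ≤ Q * P ^ 2 := le_mul_of_one_le_left (by positivity) hQ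
    linarith
  have haN : 0 ≤ D.aN / κ := by
    have h3 := rate D (K := 1) (ℓ := 0) (γ := 0) hA hκe h1 h2 hΛ hΛ0 zero_le_one
      (by linarith [hℓ0 1 zero_le_one]) (by linarith)
    have h4 : 8 * 1 * D.aN / κ = 8 * (D.aN / κ) := by ring
    rw [h4] at h3
    simp only [mul_zero, zero_div, add_zero] at h3
    linarith
  have r1' : 4 * D.j * (P * (D.δ ^ 2 / κ + Real.sqrt (Λ / κ))) / D.δ +
      8 * D.j ^ 2 * (P * Λ) / D.δ ^ 2 ≤ 8 * (4 * Q * P ^ 2) * D.aN / κ := by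
    refine r1.trans ?_
    have e1 : 8 * P * D.aN / κ = 8 * P * (D.aN / κ) := by ring
    have e2 : 8 * (4 * Q * P ^ 2) * D.aN / κ = 8 * (4 * Q * P ^ 2) * (D.aN / κ) := by ring
    rw [e1, e2]
    exact mul_le_mul_of_nonneg_right (by linarith) haN
  refine ⟨J1'.sm, J2.sm, ?_, ?_⟩
  · rw [J1'.ge]
    refine hl1.trans ?_
    have e1 : ∑ k : Tor d M, (‖D.ph q k‖ ^ 2 / D.δ ^ 2) ^ D.j = D.U1 q := rfl
    rw [e1, cardT]
    have e2 : 0 ≤ D.U1 q := by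
      rw [← e1]
      positivity
    have e3 : (M : ℝ) ^ d ≤ ((M : ℝ) ^ d) ^ 2 := by nlinarith
    have e4 : (M : ℝ) ^ d * (1 / 4) ^ D.j ≤ ((M : ℝ) ^ d) ^ 2 * (1 / 4) ^ D.j :=
      mul_le_mul_of_nonneg_right e3 (by positivity)
    have e5 : 0 ≤ (M : ℝ) ^ d * (1 / 4) ^ D.j := by positivity
    refine (mul_le_mul_of_nonneg_right r1' (by linarith)).trans ?_
    refine mul_le_mul_of_nonneg_left (by linarith) ?_
    have e6 : 8 * (4 * Q * P ^ 2) * D.aN / κ = 8 * (4 * Q * P ^ 2) * (D.aN / κ) := by ring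
    rw [e6]
    positivity
  · rw [J2.ge]
    refine hl2.trans ?_
    have e1 : ((Fintype.card (Tor d M × Tor d M) : ℕ) : ℝ) = ((M : ℝ) ^ d) ^ 2 := by
      rw [Fintype.card_prod, Nat.cast_mul, cardT, sq]
    rw [e1]
    have e2 : 0 ≤ D.U2 q := by
      rw [← eU2q]
      positivity
    exact mul_le_mul_of_nonneg_right r2 (by positivity)

end Pool.Agent.LE.QF.H91
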