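import Pool.Agent.LE.StmtsQF

/-!
# Squad LQF, row XHB: gradient and drift of `G + τ G φ G`
-/

set_option autoImplicit false

open scoped BigOperators Matrix

noncomputable section

namespace Pool.Agent.LE.QF.H91

open Pool.Agent.LE.QD

namespace XHB

variable {X : Type} [Fintype X] [DecidableEq X]

theorem GD_apply (G : Matrix X X ℂ) (φ : X → ℂ) (a b : X) :
    GD G φ a b = ∑ y, G a y * φ y * G y b := by
  unfold GD
  rw [Matrix.mul_apply]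
  refine Finset.sum_congr rfl fun y _ => ?_
  rw [Matrix.mul_diagonal]

theorem dX_apply (G Q : Matrix X X ℂ) (τ : ℝ) (φ : X → ℂ) (c a b : X) :
    dX G Q τ φ c a b = -(G a c * G c b) + (τ : ℂ) * (-(G a c * GD G φ c b)) +
      (τ : ℂ) * (-(GD G φ a c * G c b)) + (τ : ℂ) * ∑ y, G a y * Q y c * G y b := by
  unfold dX
  rw [Matrix.add_apply, Matrix.smul_apply, Matrix.add_apply, Matrix.add_apply, smul_eq_mul,
    GD_apply G (fun y => Q y c)]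
  have h1 : (gG G c * Matrix.diagonal φ * G) a b = -(G a c * GD G φ c b) := by
    rw [GD_apply, Matrix.mul_apply, Finset.mul_sum, ← Finset.sum_neg_distrib]
    refine Finset.sum_congr rfl fun y _ => ?_
    rw [Matrix.mul_diagonal]
    show -(G a c * G c y) * φ y * G y b = -(G a c * (G c y * φ y * G y b))
    ring
  have h2 : (G * Matrix.diagonal φ * gG G c) a b = -(GD G φ a c * G c b) := by
    rw [GD_apply, Matrix.mul_apply, Finset.sum_mul, ← Finset.sum_neg_distrib]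
    refine Finset.sum_congr rfl fun y _ => ?_
    rw [Matrix.mul_diagonal]
    show G a y * φ y * -(G y c * G c b) = -(G a y * φ y * G y c * G c b)
    ring
  rw [h1, h2]
  show -(G a c * G c b) + _ = _
  ring

theorem lX_apply (G Q : Matrix X X ℂ) (τ : ℝ) (φ μ ψ : X → ℂ) (a b : X) :
    lX G Q τ φ μ ψ a b = (τ : ℂ) * GD G ψ a b + (τ : ℂ) * ∑ c, G a c * μ c * GD G φ c b +
      (τ : ℂ) * ∑ c, GD G φ a c * μ c * G c b +
      (τ : ℂ) * (-∑ c, ∑ y, (G a c * G c y) * (Q y c * G y b)) +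
      (τ : ℂ) * (-∑ c, ∑ y, (G a y * Q y c) * (G y c * G c b)) := by
  unfold lX
  rw [Matrix.smul_apply, Matrix.add_apply, Matrix.add_apply, Matrix.add_apply, smul_eq_mul,
    Finset.sum_add_distrib, Matrix.add_apply, Matrix.sum_apply, Matrix.sum_apply]
  have h1 : (G * Matrix.diagonal μ * GD G φ) a b = ∑ c, G a c * μ c * GD G φ c b := by
    rw [Matrix.mul_apply]
    refine Finset.sum_congr rfl fun y _ => ?_
    rw [Matrix.mul_diagonal]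
  have h2 : (GD G φ * Matrix.diagonal μ * G) a b = ∑ c, GD G φ a c * μ c * G c b := by
    rw [Matrix.mul_apply]
    refine Finset.sum_congr rfl fun y _ => ?_
    rw [Matrix.mul_diagonal]
  have h3 : ∑ c, (gG G c * Matrix.diagonal (fun y => Q y c) * G) a b =
      -∑ c, ∑ y, (G a c * G c y) * (Q y c * G y b) := by
    rw [← Finset.sum_neg_distrib]
    refine Finset.sum_congr rfl fun c _ => ?_
    rw [Matrix.mul_apply, ← Finset.sum_neg_distrib]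
    refine Finset.sum_congr rfl fun y _ => ?_
    rw [Matrix.mul_diagonal]
    show -(G a c * G c y) * Q y c * G y b = _
    ring
  have h4 : ∑ c, (G * Matrix.diagonal (fun y => Q y c) * gG G c) a b =
      -∑ c, ∑ y, (G a y * Q y c) * (G y c * G c b) := by
    rw [← Finset.sum_neg_distrib]
    refine Finset.sum_congr rfl fun c _ => ?_
    rw [Matrix.mul_apply, ← Finset.sum_neg_distrib]
    refine Finset.sum_congr rfl fun y _ => ?_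
    rw [Matrix.mul_diagonal]
    show G a y * Q y c * -(G y c * G c b) = _
    ring
  rw [h1, h2, h3, h4]
  ring

theorem cs (f g : X → ℂ) : (∑ x, ‖f x‖ * ‖g x‖) ^ 2 ≤ (∑ x, ‖f x‖ ^ 2) * ∑ x, ‖g x‖ ^ 2 :=
  Finset.sum_mul_sq_le_sq_mul_sq _ _ _

theorem cs2 (f g : X → X → ℂ) : ‖∑ c, ∑ y, f c y * g c y‖ ^ 2 ≤
    (∑ c, ∑ y, ‖f c y‖ ^ 2) * ∑ c, ∑ y, ‖g c y‖ ^ 2 := by
  have h1 : ‖∑ c, ∑ y, f c y * g c y‖ ≤ ∑ p : X × X, ‖f p.1 p.2‖ * ‖g p.1 p.2‖ := by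
    rw [Fintype.sum_prod_type]
    refine (norm_sum_le _ _).trans (Finset.sum_le_sum fun c _ => ?_)
    refine (norm_sum_le _ _).trans (Finset.sum_le_sum fun y _ => ?_)
    rw [norm_mul]
  have h2 := Finset.sum_mul_sq_le_sq_mul_sq (Finset.univ : Finset (X × X))
    (fun p => ‖f p.1 p.2‖) (fun p => ‖g p.1 p.2‖)
  rw [Fintype.sum_prod_type (f := fun p : X × X => ‖f p.1 p.2‖ ^ 2),
    Fintype.sum_prod_type (f := fun p : X × X => ‖g p.1 p.2‖ ^ 2)] at h2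
  exact (pow_le_pow_left₀ (norm_nonneg _) h1 2).trans h2

theorem four (x y z w : ℂ) : ‖x + y + z + w‖ ^ 2 ≤
    4 * (‖x‖ ^ 2 + ‖y‖ ^ 2 + ‖z‖ ^ 2 + ‖w‖ ^ 2) := by
  have h1 : ‖x + y + z + w‖ ≤ ‖x‖ + ‖y‖ + ‖z‖ + ‖w‖ := by
    refine (norm_add_le _ _).trans ?_
    gcongr
    refine (norm_add_le _ _).trans ?_
    gcongr
    exact norm_add_le _ _
  have h2 := pow_le_pow_left₀ (norm_nonneg _) h1 2
  nlinarith [sq_nonneg (‖x‖ - ‖y‖), sq_nonneg (‖x‖ - ‖z‖), sq_nonneg (‖x‖ - ‖w‖),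
    sq_nonneg (‖y‖ - ‖z‖), sq_nonneg (‖y‖ - ‖w‖), sq_nonneg (‖z‖ - ‖w‖)]

section good

variable {G : Matrix X X ℂ} {μ : X → ℂ} {𝒩 : X → Finset X} {κ τ δ N C₀ : ℝ}
  (h : GdM G μ 𝒩 κ τ δ N C₀)

include h

theorem row (a : X) : ∑ b, ‖G a b‖ ^ 2 ≤ 2 / τ := by
  have h1 := (abs_le.1 (h.hk a)).2
  have h2 := h.hδ.2.1
  rw [le_div_iff₀ h.hκ.2.2.1]
  nlinarith

theorem col (b : X) : ∑ a, ‖G a b‖ ^ 2 ≤ 2 / τ := by
  have h1 := row h b
  simp only [fun a => h.hs a b]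
  exact h1

theorem GD_symm (φ : X → ℂ) (a b : X) : GD G φ a b = GD G φ b a := by
  rw [GD_apply, GD_apply]
  refine Finset.sum_congr rfl fun y _ => ?_
  rw [h.hs a y, h.hs y b]
  ring

theorem rowcol (a b : X) : ∑ y, ‖G a y‖ * ‖G y b‖ ≤ 2 / τ := by
  have h1 := cs (fun y => G a y) (fun y => G y b)
  have h2 : 0 ≤ 2 / τ := by
    have := h.hκ.2.2.1
    positivity
  have h3 : (∑ y, ‖G a y‖ * ‖G y b‖) ^ 2 ≤ (2 / τ) ^ 2 := by
    refine h1.trans ?_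
    rw [sq (2 / τ)]
    exact mul_le_mul (row h a) (col h b) (Finset.sum_nonneg fun _ _ => sq_nonneg _) h2
  exact (pow_le_pow_iff_left₀ (Finset.sum_nonneg fun _ _ =>
    mul_nonneg (norm_nonneg _) (norm_nonneg _)) h2 two_ne_zero).1 h3

/-- near and far -/
theorem nearfar (a : X) (f : X → ℂ) {B S : ℝ} (hB : ∀ c, ‖f c‖ ≤ B) (hS : ∑ c, ‖f c‖ ^ 2 ≤ S) :
    ∑ c, ‖G a c‖ ^ 2 * ‖f c‖ ^ 2 ≤ C₀ ^ 2 * N * B ^ 2 + C₀ ^ 2 * δ ^ 2 * S := by
  have h1 : ∀ c, ‖G a c‖ ^ 2 * ‖f c‖ ^ 2 ≤ (if c ∈ 𝒩 a then C₀ ^ 2 * B ^ 2 else 0) +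
      C₀ ^ 2 * δ ^ 2 * ‖f c‖ ^ 2 := by
    intro c
    have hf : ‖f c‖ ^ 2 ≤ B ^ 2 := pow_le_pow_left₀ (norm_nonneg _) (hB c) 2
    split_ifs with hc
    · have h2 : ‖G a c‖ ^ 2 ≤ C₀ ^ 2 := pow_le_pow_left₀ (norm_nonneg _) (h.hG a c) 2
      have h3 : ‖G a c‖ ^ 2 * ‖f c‖ ^ 2 ≤ C₀ ^ 2 * B ^ 2 :=
        mul_le_mul h2 hf (sq_nonneg _) (sq_nonneg _)
      have h4 : 0 ≤ C₀ ^ 2 * δ ^ 2 * ‖f c‖ ^ 2 := by positivity
      linarith
    · have h2 : ‖G a c‖ ^ 2 ≤ (C₀ * δ) ^ 2 :=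
        pow_le_pow_left₀ (norm_nonneg _) ((h.hn a c).2 hc) 2
      have h3 : ‖G a c‖ ^ 2 * ‖f c‖ ^ 2 ≤ (C₀ * δ) ^ 2 * ‖f c‖ ^ 2 :=
        mul_le_mul_of_nonneg_right h2 (sq_nonneg _)
      rw [mul_pow] at h3
      linarith
  refine (Finset.sum_le_sum fun c _ => h1 c).trans ?_
  rw [Finset.sum_add_distrib, ← Finset.mul_sum, Finset.sum_ite_mem, Finset.univ_inter,
    Finset.sum_const, nsmul_eq_mul]
  have h2 : ((𝒩 a).card : ℝ) * (C₀ ^ 2 * B ^ 2) ≤ N * (C₀ ^ 2 * B ^ 2) :=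
    mul_le_mul_of_nonneg_right (h.hN a) (by positivity)
  have h3 : C₀ ^ 2 * δ ^ 2 * ∑ c, ‖f c‖ ^ 2 ≤ C₀ ^ 2 * δ ^ 2 * S :=
    mul_le_mul_of_nonneg_left hS (by positivity)
  linarith

/-- the sum over `c` -/
theorem wsum (Q : Matrix X X ℂ) {L : ℝ} (hQ : ∀ y, ∑ c, ‖Q y c‖ ^ 2 ≤ L) (a b : X) :
    ∑ c, ‖∑ y, G a y * Q y c * G y b‖ ^ 2 ≤ (2 / τ) ^ 2 * L := by
  have hw := rowcol h a b
  have hw0 : 0 ≤ ∑ y, ‖G a y‖ * ‖G y b‖ :=
    Finset.sum_nonneg fun _ _ => mul_nonneg (norm_nonneg _) (norm_nonneg _)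
  have h1 : ∀ c, ‖∑ y, G a y * Q y c * G y b‖ ^ 2 ≤
      (∑ y, ‖G a y‖ * ‖G y b‖) * ∑ y, ‖G a y‖ * ‖G y b‖ * ‖Q y c‖ ^ 2 := by
    intro c
    have h2 : ‖∑ y, G a y * Q y c * G y b‖ ≤ ∑ y, ‖G a y‖ * ‖G y b‖ * ‖Q y c‖ := by
      refine (norm_sum_le _ _).trans (le_of_eq (Finset.sum_congr rfl fun y _ => ?_))
      rw [norm_mul, norm_mul]
      ring
    refine (pow_le_pow_left₀ (norm_nonneg _) h2 2).trans ?_
    apply Finset.sum_sq_le_sum_mul_sum_of_sq_eq_mul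
    · intro y _
      positivity
    · intro y _
      positivity
    · intro y _
      ring
  refine (Finset.sum_le_sum fun c _ => h1 c).trans ?_
  rw [← Finset.mul_sum, Finset.sum_comm]
  have h3 : ∑ y, ∑ c, ‖G a y‖ * ‖G y b‖ * ‖Q y c‖ ^ 2 ≤ (∑ y, ‖G a y‖ * ‖G y b‖) * L := by
    rw [Finset.sum_mul]
    refine Finset.sum_le_sum fun y _ => ?_
    rw [← Finset.mul_sum]
    exact mul_le_mul_of_nonneg_left (hQ y) (by positivity)
  have hL : 0 ≤ L := (Finset.sum_nonneg fun _ _ => sq_nonneg _).trans (hQ a)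
  refine (mul_le_mul_of_nonneg_left h3 hw0).trans ?_
  rw [← mul_assoc, ← sq]
  exact mul_le_mul_of_nonneg_right (pow_le_pow_left₀ hw0 hw 2) hL

end good

end XHB

open XHB in
/-- XHB -/
theorem xhb (nrb : NrbStmt) : XhbStmt := by
  intro C₀ hC₀
  obtain ⟨P, hP, nrb⟩ := nrb C₀ hC₀
  refine ⟨4 + 8 * (C₀ ^ 4 * P ^ 2) + 16 * C₀ + 4 * (C₀ ^ 3 * P), ?_, ?_⟩
  · have : 0 ≤ C₀ ^ 4 * P ^ 2 := by positivity
    have : 0 ≤ C₀ ^ 3 * P := by positivity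
    linarith
  intro X _ _ G Q μ φ ψ 𝒩 κ τ δ N Λ h hφ hL hΛ hQ hψ
  obtain ⟨hκ0, hκ1, hτ0, hκτ, hτκ⟩ := h.hκ
  obtain ⟨hδ0, hδ1, hN1⟩ := h.hδ
  obtain ⟨-, n2', n3, -⟩ := nrb X G μ 𝒩 κ τ δ N h
  have g2 := n2' φ δ hδ0 hφ
  have g3 := n3 φ δ hδ0 hφ
  have g3' : ∀ b, ∑ c, ‖GD G φ c b‖ ^ 2 ≤ P * δ ^ 2 / κ ^ 3 := by
    intro b
    have := g3 b
    simp only [fun c => GD_symm h φ c b]
    exact this
  have hΛ0 : 0 ≤ Λ := le_trans (by positivity) hΛ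
  have hτκ2 : τ ^ 2 ≤ C₀ ^ 2 * κ ^ 2 := by
    rw [← mul_pow]
    exact pow_le_pow_left₀ hτ0.le hτκ 2
  have hC2 : (1 : ℝ) ≤ C₀ ^ 2 := one_le_pow₀ hC₀
  -- near and far
  have nf : ∀ (a : X) (f : X → ℂ), (∀ c, ‖f c‖ ≤ P * δ / κ) → ∑ c, ‖f c‖ ^ 2 ≤ P * δ ^ 2 / κ ^ 3 →
      τ ^ 2 * ∑ c, ‖G a c‖ ^ 2 * ‖f c‖ ^ 2 ≤ C₀ ^ 4 * P ^ 2 * Λ := by
    intro a f hf1 hf2
    have h1 := nearfar h a f hf1 hf2
    have h2 : τ ^ 2 * ∑ c, ‖G a c‖ ^ 2 * ‖f c‖ ^ 2 ≤ C₀ ^ 2 * κ ^ 2 *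
        (C₀ ^ 2 * N * (P * δ / κ) ^ 2 + C₀ ^ 2 * δ ^ 2 * (P * δ ^ 2 / κ ^ 3)) :=
      mul_le_mul hτκ2 h1 (Finset.sum_nonneg fun _ _ => by positivity) (by positivity)
    have h3 : C₀ ^ 2 * κ ^ 2 *
        (C₀ ^ 2 * N * (P * δ / κ) ^ 2 + C₀ ^ 2 * δ ^ 2 * (P * δ ^ 2 / κ ^ 3)) =
        C₀ ^ 4 * (P ^ 2 * (δ ^ 2 * N) + P * (δ ^ 4 / κ)) := by
      field_simp
    rw [h3] at h2
    have h4 : P * (δ ^ 4 / κ) ≤ P ^ 2 * (δ ^ 4 / κ) := by
      apply mul_le_mul_of_nonneg_right _ (by positivity)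
      nlinarith
    have h5 : P ^ 2 * (δ ^ 2 * N) + P * (δ ^ 4 / κ) ≤ P ^ 2 * Λ := by
      have := mul_le_mul_of_nonneg_left hΛ (by positivity : 0 ≤ P ^ 2)
      linarith
    have h6 := mul_le_mul_of_nonneg_left h5 (by positivity : 0 ≤ C₀ ^ 4)
    linarith
  constructor
  · intro a b
    have e1 : ∑ c, ‖G a c * G c b‖ ^ 2 ≤ Λ := by
      have h1 : ∑ c, ‖G a c * G c b‖ ^ 2 = ∑ c, KK G a c * KK G b c := by
        refine Finset.sum_congr rfl fun c _ => ?_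
        show ‖G a c * G c b‖ ^ 2 = ‖G a c‖ ^ 2 * ‖G b c‖ ^ 2
        rw [norm_mul, mul_pow, h.hs c b]
      rw [h1]
      have h2 := Finset.sum_mul_sq_le_sq_mul_sq Finset.univ (fun c => KK G a c) (fun c => KK G b c)
      have h3 : (∑ c, KK G a c * KK G b c) ^ 2 ≤ Λ ^ 2 := by
        refine h2.trans ?_
        rw [sq Λ]
        exact mul_le_mul (hL a) (hL b) (Finset.sum_nonneg fun _ _ => sq_nonneg _) hΛ0
      exact le_of_sq_le_sq h3 hΛ0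
    have e2 : ∑ c, ‖(τ : ℂ) * (-(G a c * GD G φ c b))‖ ^ 2 ≤ C₀ ^ 4 * P ^ 2 * Λ := by
      have h1 := nf a (fun c => GD G φ c b) (fun c => g2 c b) (g3' b)
      rw [Finset.mul_sum] at h1
      refine le_trans (le_of_eq (Finset.sum_congr rfl fun c _ => ?_)) h1
      rw [norm_mul, norm_neg, norm_mul, Complex.norm_real, Real.norm_eq_abs, mul_pow, mul_pow,
        sq_abs]
    have e3 : ∑ c, ‖(τ : ℂ) * (-(GD G φ a c * G c b))‖ ^ 2 ≤ C₀ ^ 4 * P ^ 2 * Λ := by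
      have h1 := nf b (fun c => GD G φ a c) (fun c => g2 a c) (g3 a)
      rw [Finset.mul_sum] at h1
      refine le_trans (le_of_eq (Finset.sum_congr rfl fun c _ => ?_)) h1
      rw [norm_mul, norm_neg, norm_mul, Complex.norm_real, Real.norm_eq_abs, mul_pow, mul_pow,
        sq_abs, h.hs c b]
      ring
    have e4 : ∑ c, ‖(τ : ℂ) * ∑ y, G a y * Q y c * G y b‖ ^ 2 ≤ 4 * C₀ * Λ := by
      have h1 := wsum h Q hQ a b
      have h2 : ∑ c, ‖(τ : ℂ) * ∑ y, G a y * Q y c * G y b‖ ^ 2 =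
          τ ^ 2 * ∑ c, ‖∑ y, G a y * Q y c * G y b‖ ^ 2 := by
        rw [Finset.mul_sum]
        refine Finset.sum_congr rfl fun c _ => ?_
        rw [norm_mul, Complex.norm_real, Real.norm_eq_abs, mul_pow, sq_abs]
      rw [h2]
      refine (mul_le_mul_of_nonneg_left h1 (sq_nonneg τ)).trans (le_of_eq ?_)
      field_simp
      ring
    have e5 : ∑ c, ‖dX G Q τ φ c a b‖ ^ 2 ≤ ∑ c, 4 * (‖G a c * G c b‖ ^ 2 +
        ‖(τ : ℂ) * (-(G a c * GD G φ c b))‖ ^ 2 + ‖(τ : ℂ) * (-(GD G φ a c * G c b))‖ ^ 2 +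
        ‖(τ : ℂ) * ∑ y, G a y * Q y c * G y b‖ ^ 2) := by
      refine Finset.sum_le_sum fun c _ => ?_
      rw [dX_apply]
      refine (four _ _ _ _).trans (le_of_eq ?_)
      rw [norm_neg (G a c * G c b)]
    refine e5.trans ?_
    rw [← Finset.mul_sum, Finset.sum_add_distrib, Finset.sum_add_distrib, Finset.sum_add_distrib]
    have e6 : 0 ≤ C₀ ^ 3 * P * Λ := by positivity
    nlinarith
  · intro a b
    obtain ⟨s, hs⟩ : ∃ s, s = Real.sqrt (Λ / κ) := ⟨_, rfl⟩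
    have hs0 : 0 ≤ s := hs ▸ Real.sqrt_nonneg _
    have hs2 : s ^ 2 = Λ / κ := by
      rw [hs]
      exact Real.sq_sqrt (by positivity)
    rw [← hs]
    rw [← hs] at hψ
    have hd0 : 0 ≤ δ ^ 2 / κ := by positivity
    have hnτ : ∀ z : ℂ, ‖(τ : ℂ) * z‖ = τ * ‖z‖ := fun z => by
      rw [norm_mul, Complex.norm_real, Real.norm_of_nonneg hτ0.le]
    have e1 : ‖(τ : ℂ) * GD G ψ a b‖ ≤ 2 * C₀ * (δ ^ 2 / κ + s) := by
      rw [hnτ, GD_apply]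
      have h1 : ‖∑ y, G a y * ψ y * G y b‖ ≤ ∑ y, ‖G a y‖ * ‖G y b‖ * (C₀ * (δ ^ 2 / κ + s)) := by
        refine (norm_sum_le _ _).trans (Finset.sum_le_sum fun y _ => ?_)
        rw [norm_mul, norm_mul]
        have := mul_le_mul_of_nonneg_left (hψ y) (by positivity : 0 ≤ ‖G a y‖ * ‖G y b‖)
        linarith
      rw [← Finset.sum_mul] at h1
      have h2 := mul_le_mul_of_nonneg_right (rowcol h a b)
        (by positivity : 0 ≤ C₀ * (δ ^ 2 / κ + s))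
      have h3 := mul_le_mul_of_nonneg_left (h1.trans h2) hτ0.le
      refine h3.trans (le_of_eq ?_)
      field_simp
    have emu : ∀ (f g : X → ℂ), ∑ c, ‖f c‖ ^ 2 ≤ 2 / τ → ∑ c, ‖g c‖ ^ 2 ≤ P * δ ^ 2 / κ ^ 3 →
        τ * ‖∑ c, f c * μ c * g c‖ ≤ 2 * (C₀ ^ 3 * P) * (δ ^ 2 / κ) := by
      intro f g hf hg
      have h1 : ‖∑ c, f c * μ c * g c‖ ≤ (C₀ * δ) * ∑ c, ‖f c‖ * ‖g c‖ := by
        rw [Finset.mul_sum]
        refine (norm_sum_le _ _).trans (Finset.sum_le_sum fun c _ => ?_)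
        rw [norm_mul, norm_mul]
        have := mul_le_mul_of_nonneg_left (h.hμ c) (by positivity : 0 ≤ ‖f c‖ * ‖g c‖)
        linarith
      have h2 : (∑ c, ‖f c‖ * ‖g c‖) ^ 2 ≤ 2 / τ * (P * δ ^ 2 / κ ^ 3) :=
        (cs f g).trans (mul_le_mul hf hg (Finset.sum_nonneg fun _ _ => sq_nonneg _)
          (by positivity))
      have h3 : (τ * ((C₀ * δ) * ∑ c, ‖f c‖ * ‖g c‖)) ^ 2 ≤
          (2 * (C₀ ^ 3 * P) * (δ ^ 2 / κ)) ^ 2 := by
        have h4 : (τ * ((C₀ * δ) * ∑ c, ‖f c‖ * ‖g c‖)) ^ 2 =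
            τ ^ 2 * (C₀ * δ) ^ 2 * (∑ c, ‖f c‖ * ‖g c‖) ^ 2 := by ring
        rw [h4]
        refine (mul_le_mul_of_nonneg_left h2 (by positivity)).trans ?_
        have h5 : τ ^ 2 * (C₀ * δ) ^ 2 * (2 / τ * (P * δ ^ 2 / κ ^ 3)) =
            2 * τ * C₀ ^ 2 * P * δ ^ 4 / κ ^ 3 := by
          field_simp
        have h6 : 2 * τ * C₀ ^ 2 * P * δ ^ 4 / κ ^ 3 ≤
            2 * (C₀ * κ) * C₀ ^ 2 * P * δ ^ 4 / κ ^ 3 := by
          gcongr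
        have h7 : 2 * (C₀ * κ) * C₀ ^ 2 * P * δ ^ 4 / κ ^ 3 = 2 * (C₀ ^ 3 * P) * (δ ^ 2 / κ) ^ 2 := by
          field_simp
        have h8 : (1 : ℝ) ≤ C₀ ^ 3 * P := one_le_mul_of_one_le_of_one_le (one_le_pow₀ hC₀) hP
        rw [h5]
        refine h6.trans ?_
        rw [h7, mul_pow]
        apply mul_le_mul_of_nonneg_right _ (sq_nonneg _)
        nlinarith
      have h4 := le_of_sq_le_sq h3 (by positivity)
      exact (mul_le_mul_of_nonneg_left h1 hτ0.le).trans h4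
    have e2 : ‖(τ : ℂ) * ∑ c, G a c * μ c * GD G φ c b‖ ≤ 2 * (C₀ ^ 3 * P) * (δ ^ 2 / κ) := by
      rw [hnτ]
      exact emu (fun c => G a c) (fun c => GD G φ c b) (row h a) (g3' b)
    have e3 : ‖(τ : ℂ) * ∑ c, GD G φ a c * μ c * G c b‖ ≤ 2 * (C₀ ^ 3 * P) * (δ ^ 2 / κ) := by
      rw [hnτ]
      have h1 := emu (fun c => G c b) (fun c => GD G φ a c) (col h b) (g3 a)
      have h2 : ∑ c, GD G φ a c * μ c * G c b = ∑ c, G c b * μ c * GD G φ a c :=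
        Finset.sum_congr rfl fun c _ => by ring
      rw [h2]
      exact h1
    have edd : ∀ (f g : X → X → ℂ) (A B : ℝ), ∑ c, ∑ y, ‖f c y‖ ^ 2 ≤ A →
        ∑ c, ∑ y, ‖g c y‖ ^ 2 ≤ B → 0 ≤ A → A * B = (2 / τ) ^ 2 * (C₀ * Λ * (2 / τ)) →
        ‖(τ : ℂ) * (-∑ c, ∑ y, f c y * g c y)‖ ≤ 3 * C₀ * s := by
      intro f g A B hA hB hA0 hAB
      rw [hnτ, norm_neg]
      have h1 := (cs2 f g).trans (mul_le_mul hA hB (Finset.sum_nonneg fun _ _ =>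
        Finset.sum_nonneg fun _ _ => sq_nonneg _) hA0)
      rw [hAB] at h1
      apply le_of_sq_le_sq _ (by positivity)
      rw [mul_pow]
      refine (mul_le_mul_of_nonneg_left h1 (sq_nonneg τ)).trans ?_
      have h2 : τ ^ 2 * ((2 / τ) ^ 2 * (C₀ * Λ * (2 / τ))) = 8 * C₀ * (Λ / τ) := by
        field_simp
        ring
      have h3 : Λ / τ ≤ C₀ * (Λ / κ) := by
        rw [div_le_iff₀ hτ0]
        have h4 : C₀ * (Λ / κ) * τ = Λ * (C₀ * τ / κ) := by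
          field_simp
        rw [h4]
        apply le_mul_of_one_le_right hΛ0
        rw [le_div_iff₀ hκ0]
        linarith
      rw [h2, mul_pow, hs2]
      have h5 : 8 * C₀ * (Λ / τ) ≤ 8 * C₀ * (C₀ * (Λ / κ)) :=
        mul_le_mul_of_nonneg_left h3 (by positivity)
      have h6 : 0 ≤ Λ / κ := by positivity
      nlinarith
    have hGG : ∀ a : X, ∑ c, ∑ y, ‖G a c * G c y‖ ^ 2 ≤ (2 / τ) ^ 2 := by
      intro a
      have h1 : ∀ c, ∑ y, ‖G a c * G c y‖ ^ 2 ≤ ‖G a c‖ ^ 2 * (2 / τ) := by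
        intro c
        have h2 : ∑ y, ‖G a c * G c y‖ ^ 2 = ‖G a c‖ ^ 2 * ∑ y, ‖G c y‖ ^ 2 := by
          rw [Finset.mul_sum]
          exact Finset.sum_congr rfl fun y _ => by rw [norm_mul, mul_pow]
        rw [h2]
        exact mul_le_mul_of_nonneg_left (row h c) (sq_nonneg _)
      refine (Finset.sum_le_sum fun c _ => h1 c).trans ?_
      rw [← Finset.sum_mul, sq (2 / τ)]
      exact mul_le_mul_of_nonneg_right (row h a) (by positivity)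
    have hQG : ∀ b : X, ∑ y, ∑ c, ‖Q y c * G y b‖ ^ 2 ≤ C₀ * Λ * (2 / τ) := by
      intro b
      have h1 : ∀ y, ∑ c, ‖Q y c * G y b‖ ^ 2 ≤ C₀ * Λ * ‖G y b‖ ^ 2 := by
        intro y
        have h2 : ∑ c, ‖Q y c * G y b‖ ^ 2 = (∑ c, ‖Q y c‖ ^ 2) * ‖G y b‖ ^ 2 := by
          rw [Finset.sum_mul]
          exact Finset.sum_congr rfl fun y _ => by rw [norm_mul, mul_pow]
        rw [h2]
        exact mul_le_mul_of_nonneg_right (hQ y) (sq_nonneg _)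
      refine (Finset.sum_le_sum fun y _ => h1 y).trans ?_
      rw [← Finset.mul_sum]
      exact mul_le_mul_of_nonneg_left (col h b) (by positivity)
    have e4 : ‖(τ : ℂ) * (-∑ c, ∑ y, (G a c * G c y) * (Q y c * G y b))‖ ≤ 3 * C₀ * s := by
      apply edd (fun c y => G a c * G c y) (fun c y => Q y c * G y b) ((2 / τ) ^ 2)
        (C₀ * Λ * (2 / τ)) (hGG a) _ (by positivity) rfl
      rw [Finset.sum_comm]
      exact hQG b
    have e5 : ‖(τ : ℂ) * (-∑ c, ∑ y, (G a y * Q y c) * (G y c * G c b))‖ ≤ 3 * C₀ * s := by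
      apply edd (fun c y => G a y * Q y c) (fun c y => G y c * G c b) (C₀ * Λ * (2 / τ))
        ((2 / τ) ^ 2) _ _ (by positivity) (by ring)
      · rw [Finset.sum_comm]
        have h1 := hQG a
        refine le_trans (le_of_eq ?_) h1
        refine Finset.sum_congr rfl fun y _ => Finset.sum_congr rfl fun c _ => ?_
        rw [h.hs a y, mul_comm]
      · have h1 := hGG b
        refine le_trans (le_of_eq ?_) h1
        refine Finset.sum_congr rfl fun c _ => Finset.sum_congr rfl fun y _ => ?_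
        rw [h.hs y c, h.hs c b, mul_comm]
    rw [lX_apply]
    have t1 := norm_add_le ((τ : ℂ) * GD G ψ a b) ((τ : ℂ) * ∑ c, G a c * μ c * GD G φ c b)
    have t2 := norm_add_le ((τ : ℂ) * GD G ψ a b + (τ : ℂ) * ∑ c, G a c * μ c * GD G φ c b)
      ((τ : ℂ) * ∑ c, GD G φ a c * μ c * G c b)
    have t3 := norm_add_le ((τ : ℂ) * GD G ψ a b + (τ : ℂ) * ∑ c, G a c * μ c * GD G φ c b +
      (τ : ℂ) * ∑ c, GD G φ a c * μ c * G c b)
      ((τ : ℂ) * (-∑ c, ∑ y, (G a c * G c y) * (Q y c * G y b)))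
    have t4 := norm_add_le ((τ : ℂ) * GD G ψ a b + (τ : ℂ) * ∑ c, G a c * μ c * GD G φ c b +
      (τ : ℂ) * ∑ c, GD G φ a c * μ c * G c b +
      (τ : ℂ) * (-∑ c, ∑ y, (G a c * G c y) * (Q y c * G y b)))
      ((τ : ℂ) * (-∑ c, ∑ y, (G a y * Q y c) * (G y c * G c b)))
    have t5 : ‖(τ : ℂ) * GD G ψ a b + (τ : ℂ) * ∑ c, G a c * μ c * GD G φ c b +
      (τ : ℂ) * ∑ c, GD G φ a c * μ c * G c b +
      (τ : ℂ) * (-∑ c, ∑ y, (G a c * G c y) * (Q y c * G y b)) +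
      (τ : ℂ) * (-∑ c, ∑ y, (G a y * Q y c) * (G y c * G c b))‖ ≤
      2 * C₀ * (δ ^ 2 / κ + s) + 2 * (C₀ ^ 3 * P) * (δ ^ 2 / κ) + 2 * (C₀ ^ 3 * P) * (δ ^ 2 / κ) +
      3 * C₀ * s + 3 * C₀ * s := by linarith
    refine t5.trans ?_
    have u1 : 0 ≤ C₀ ^ 4 * P ^ 2 := by positivity
    have u2 : 0 ≤ C₀ ^ 3 * P := by positivity
    nlinarith [mul_nonneg u1 hd0, mul_nonneg u1 hs0, mul_nonneg u2 hs0, mul_nonneg u2 hd0,
      mul_nonneg (by linarith : (0 : ℝ) ≤ C₀) hd0, mul_nonneg (by linarith : (0 : ℝ) ≤ C₀) hs0]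

end Pool.Agent.LE.QF.H91
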